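import Pool.Agent.Helper83.ZB.Pts
import Pool.Agent.Helper73.ZB.Rows
import Pool.Agent.Helper93.ZB.Geom

/-! Project ZB: the core of the argument at finite places. -/

set_option autoImplicit false

namespace Pool.ZB

open Finset Pool.RA

/-- The determinant inequality for the rows. -/
theorem coreP_ineq {ι : Type} [Fintype ι] (r : ι → ℕ) (hr : ∀ i, (r i).Prime)
    (S : Finset ℕ) (hS : ∀ p ∈ S, p.Prime)
    (m n : ℕ → ℕ) (hn : ∀ p ∈ S, 1 ≤ n p) (hnm : ∀ p ∈ S, n p ≤ m p) (Tm : ℝ)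
    (hTm : ∀ p ∈ S, (m p : ℝ) ≤ Tm * n p)
    (h : ∀ i, (r i).Coprime (∏ p ∈ S, p ^ m p)) (h' : ∀ i, (r i).Coprime (∏ p ∈ S, p ^ n p))
    (s : ℤˣ) (x k : ι → ℤ) (hx : chi r (∏ p ∈ S, p ^ n p) h' x = 1)
    (hk : chi r (∏ p ∈ S, p ^ m p) h k = sgn _ s) (L w b α : ℝ)
    (hnk : nm r k ≤ 2 * L) (hlk : |lam r k| ≤ (b - 1) * (2 * L))
    (hnx : nmR r (fun i => (x i : ℝ) - α * k i) ≤ w)
    (hlx : |lamR r (fun i => (x i : ℝ) - α * k i)| ≤ (b - 1) * w)
    (C0 A : ℕ) (f : Col A → ℤ × ℤ) (hf1 : ∀ i, 0 ≤ (f i).1 + C0) (hf2 : ∀ i, (f i).1 ≤ C0)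
    (hdet : (rmat A (fun i => ((f i).1 + C0).toNat) (fun i => Rv r s x k (f i))).det ≠ 0) :
    (∑ p ∈ S, (m p : ℝ) * Real.log p) * ((A : ℝ) + 1) -
      (∑ p ∈ S, (m p : ℝ) * Real.log p) * Tm / 4 ≤
      2 * ((A : ℝ) + 1) * (Real.log (2 * ((A : ℝ) + 1)) + (2 * (C0 : ℝ)) * Real.log 2) +
        b / 2 * ∑ i, len L w α (f i) := by
  have hr1 : ∀ i, 1 ≤ r i := fun i => (hr i).one_le
  obtain ⟨g, G, hg, hG, hcong⟩ := lift_pts r S m n hnm hn hS h h' s x k hx hk C0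
  have hdet' : (bmat A (fun i => ((f i).1 + C0).toNat) (fun i => (De r (vec x k (f i)) : ℤ))
      (fun i => vnum r s x k (f i))).det ≠ 0 := by
    refine bmat_det_ne_of_rmat A _ _ _ (fun i => ?_) hdet
    have := de_pos r hr1 (vec x k (f i))
    exact_mod_cast this.ne'
  have hE := E_padic A (2 * C0) S hS m n hn g G hg hG (fun i => ((f i).1 + C0).toNat)
    (fun i => by
      have h1 := hf1 i
      have h2 := hf2 i
      omega)
    (fun i => (De r (vec x k (f i)) : ℤ)) (fun i => vnum r s x k (f i))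
    (fun p hp i => hcong (f i) (hf1 i) p hp)
    (fun i => b / 2 * len L w α (f i))
    (fun i => by
      have h1 := (size_vec r hr1 x k α w L b hnk hnx hlk hlx (f i)).2
      rw [Int.cast_natCast, Nat.abs_cast]
      exact h1)
    (fun i => by
      have h1 := (size_vec r hr1 x k α w L b hnk hnx hlk hlx (f i)).1
      rw [abs_vnum]
      exact h1) hdet'
  have hlow : (∑ p ∈ S, (m p : ℝ) * Real.log p) * ((A : ℝ) + 1) -
      (∑ p ∈ S, (m p : ℝ) * Real.log p) * Tm / 4 ≤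
      ∑ p ∈ S, Real.log p * ((m p : ℝ) * ((A : ℝ) + 1) - (m p : ℝ) ^ 2 / (4 * n p)) := by
    rw [sum_mul, sum_mul, sum_div, ← sum_sub_distrib]
    refine sum_le_sum fun p hp => ?_
    have h1 : 0 ≤ Real.log p := Real.log_natCast_nonneg p
    have hn0 : (0 : ℝ) < n p := by exact_mod_cast hn p hp
    have h2 : (m p : ℝ) ^ 2 / (4 * n p) ≤ (m p : ℝ) * Tm / 4 := by
      rw [div_le_iff₀ (by positivity)]
      have h3 := mul_le_mul_of_nonneg_left (hTm p hp) (Nat.cast_nonneg (α := ℝ) (m p))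
      nlinarith
    have h3 := mul_le_mul_of_nonneg_left h2 h1
    nlinarith
  refine hlow.trans (hE.trans (le_of_eq ?_))
  rw [← mul_sum]
  push_cast
  ring

/-- The numerical part. -/
theorem coreP_num (δ : ℝ) (hδ : 0 < δ) (hδ1 : δ ≤ 1) (I Tm L w b T Q Slen lg C0 : ℝ)
    (hI : 0 < I) (hb1 : 1 ≤ b) (hL : 0 < L) (hw : 0 < w)
    (hQ : Q = (I / b) ^ 2 / (L * w)) (hT : (1 - δ / 8) * Q / 2 ≤ T)
    (hS : Slen ≤ (1 + δ / 8) * (2 / 3) * ((I / b) ^ 3 / (L * w)))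
    (hdet : I * T - I * Tm / 4 ≤ 2 * T * (lg + (2 * C0) * Real.log 2) + b / 2 * Slen)
    (hsmall : 2 * (lg + (2 * C0) * Real.log 2) ≤ δ / 8 * I)
    (hmain : b ^ 2 * L * Tm * w ≤ (2 / 3 - δ) * I ^ 2) : False := by
  have hb0 : 0 < b := by linarith
  have hQ0 : 0 < Q := by rw [hQ]; positivity
  have hT0 : 0 < T := lt_of_lt_of_le (by
    have : 0 < 1 - δ / 8 := by linarith
    positivity) hT
  have h1 : Tm ≤ (2 / 3 - δ) * Q := by
    have h2 : (2 / 3 - δ) * Q = ((2 / 3 - δ) * I ^ 2) / (b ^ 2 * L * w) := by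
      rw [hQ]
      field_simp
    rw [h2, le_div_iff₀ (by positivity)]
    linarith
  have h2 : b / 2 * Slen ≤ (1 + δ / 8) * (I * Q / 3) := by
    have h3 := mul_le_mul_of_nonneg_left hS (show 0 ≤ b / 2 by positivity)
    refine h3.trans (le_of_eq ?_)
    rw [hQ]
    field_simp
  have h3 : 2 * T * (lg + (2 * C0) * Real.log 2) ≤ T * (δ / 8 * I) := by
    have := mul_le_mul_of_nonneg_left hsmall hT0.le
    linarith
  have h4 : T * I * (1 - δ / 8) ≤ I * ((2 / 3 - δ) * Q) / 4 + (1 + δ / 8) * (I * Q / 3) := by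
    have h5 := mul_le_mul_of_nonneg_left h1 hI.le
    linarith
  have h5 : (1 - δ / 8) * Q / 2 * (I * (1 - δ / 8)) ≤ T * (I * (1 - δ / 8)) :=
    mul_le_mul_of_nonneg_right hT (mul_nonneg hI.le (by linarith))
  have hIQ : 0 < I * Q := mul_pos hI hQ0
  have h6 : I * Q * ((1 - δ / 8) * (1 - δ / 8) / 2) ≤
      I * Q * ((2 / 3 - δ) / 4 + (1 + δ / 8) / 3) := by
    nlinarith
  have h7 := le_of_mul_le_mul_left h6 hIQ
  nlinarith

/-- The small terms. -/
theorem coreP_small (δ : ℝ) (hδ : 0 < δ) : ∃ B : ℝ, 1 ≤ B ∧ ∀ (L w I T C0 : ℝ), B ≤ L → B ≤ w →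
    δ * L ≤ I → 1 ≤ T → T ≤ L + 1 → C0 ≤ I / w + 2 →
    2 * (Real.log (2 * T) + (2 * C0) * Real.log 2) ≤ δ / 8 * I := by
  have hlo := (Real.isLittleO_log_id_atTop).bound (show (0 : ℝ) < δ ^ 2 / 256 by positivity)
  obtain ⟨B1, hB1⟩ := Filter.eventually_atTop.1 hlo
  refine ⟨max (max B1 1) (max (96 / δ) (288 / δ ^ 2)), ?_, ?_⟩
  · exact le_trans (le_max_right _ _) (le_max_left _ _)
  intro L w I T C0 hL hw hI hT1 hT hC0
  have hL1 : B1 ≤ L := (le_trans (le_max_left _ _) (le_max_left _ _)).trans hL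
  have hL2 : 1 ≤ L := (le_trans (le_max_right _ _) (le_max_left _ _)).trans hL
  have hL3 : 288 / δ ^ 2 ≤ L := (le_trans (le_max_right _ _) (le_max_right _ _)).trans hL
  have hw1 : 96 / δ ≤ w := (le_trans (le_max_left _ _) (le_max_right _ _)).trans hw
  have hw0 : 0 < w := lt_of_lt_of_le (by positivity) hw1
  have hL0 : 0 < L := by linarith
  have hI0 : 0 < I := lt_of_lt_of_le (mul_pos hδ hL0) hI
  have h1 := hB1 L hL1
  rw [Real.norm_eq_abs, Real.norm_eq_abs, id, abs_of_nonneg (Real.log_nonneg hL2),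
    abs_of_pos hL0] at h1
  have ha : 2 * Real.log L ≤ δ / 32 * I := by
    have h2 : δ / 256 * (δ * L) ≤ δ / 256 * I := mul_le_mul_of_nonneg_left hI (by positivity)
    have h3 : 0 ≤ δ * I := by positivity
    nlinarith
  have hl2 := Real.log_two_lt_d9
  have hl20 := Real.log_two_gt_d9
  have hb : 12 * Real.log 2 ≤ δ / 32 * I := by
    rw [div_le_iff₀ (by positivity)] at hL3
    have h2 : δ / 32 * (δ * L) ≤ δ / 32 * I := mul_le_mul_of_nonneg_left hI (by positivity)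
    nlinarith
  have hc : 4 * (I / w) * Real.log 2 ≤ δ / 32 * I := by
    rw [div_le_iff₀ hδ] at hw1
    have h2 : I / w ≤ I * δ / 96 := by
      rw [div_le_div_iff₀ hw0 (by norm_num)]
      nlinarith
    have h3 : 0 ≤ I / w := by positivity
    nlinarith
  have hlog : Real.log (2 * T) ≤ 2 * Real.log 2 + Real.log L := by
    have h2 : 2 * T ≤ 4 * L := by linarith
    have h3 := Real.log_le_log (by linarith) h2
    rw [Real.log_mul (by norm_num) hL0.ne'] at h3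
    have h4 : Real.log 4 = 2 * Real.log 2 := by
      rw [show (4 : ℝ) = 2 ^ 2 by norm_num, Real.log_pow]
      push_cast
      ring
    linarith
  have h5 : C0 * Real.log 2 ≤ (I / w + 2) * Real.log 2 :=
    mul_le_mul_of_nonneg_right hC0 (by linarith)
  have h6 : 0 ≤ δ * I := by positivity
  nlinarith

/-- CORE-P. -/
theorem core_padic (δ : ℝ) (hδ : 0 < δ) : ∃ D0 w0 : ℝ, 1 ≤ D0 ∧ 1 ≤ w0 ∧
    ∀ (ι : Type) [Fintype ι] (r : ι → ℕ), (∀ i, (r i).Prime) → Function.Injective r →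
    ∀ (S : Finset ℕ), (∀ p ∈ S, p.Prime) →
    ∀ (m n : ℕ → ℕ), (∀ p ∈ S, 1 ≤ n p) → (∀ p ∈ S, n p ≤ m p) →
    ∀ (Tm : ℝ), (∀ p ∈ S, (m p : ℝ) ≤ Tm * n p) →
    ∀ (h : ∀ i, (r i).Coprime (∏ p ∈ S, p ^ m p)) (h' : ∀ i, (r i).Coprime (∏ p ∈ S, p ^ n p))
      (s : ℤˣ) (x k : ι → ℤ), chi r (∏ p ∈ S, p ^ n p) h' x = 1 → x ≠ 0 →
      chi r (∏ p ∈ S, p ^ m p) h k = sgn _ s →
    ∀ (L w b α I : ℝ), I = ∑ p ∈ S, (m p : ℝ) * Real.log p → 1 ≤ b → b ≤ 2 →
      nm r k ≤ 2 * L → |lam r k| ≤ (b - 1) * (2 * L) →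
      nmR r (fun i => (x i : ℝ) - α * k i) ≤ w →
      |lamR r (fun i => (x i : ℝ) - α * k i)| ≤ (b - 1) * w →
      D0 * w / L ≤ α → α ≤ 1 / D0 → w0 ≤ w → D0 * w ≤ L → δ * L ≤ I → I < b * L →
      b ^ 2 * L * Tm * w ≤ (2 / 3 - δ) * I ^ 2 → False := by
  classical
  obtain ⟨B, hB1, hB⟩ := coreP_small (min δ 1) (lt_min hδ one_pos)
  obtain ⟨D1, hD1, hgeo⟩ := geometry (δ / 2) (min δ 1 / 8) (by positivity)
    (by have : 0 < min δ 1 := lt_min hδ one_pos
        positivity)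
  refine ⟨max D1 B, B, le_max_of_le_left hD1, hB1, ?_⟩
  intro ι _ r hr hinj S hS m n hn hnm Tm hTm h h' s x k hx hx0 hk L w b α I hI hb1 hb2 hnk hlk
    hnx hlx hα1 hα2 hw hwL hδI hIL hmain
  set δ' : ℝ := min δ 1 with hδ'
  have hδ'0 : 0 < δ' := lt_min hδ one_pos
  have hδ'1 : δ' ≤ 1 := min_le_right _ _
  have hδ'2 : δ' ≤ δ := min_le_left _ _
  have hw0 : 0 < w := by linarith
  have hD0 : 0 < max D1 B := lt_of_lt_of_le (by linarith) (le_max_left _ _)
  have hL0 : 0 < L := lt_of_lt_of_le (mul_pos hD0 hw0) hwL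
  have hI0 : 0 < I := lt_of_lt_of_le (mul_pos hδ hL0) hδI
  have hb0 : 0 < b := by linarith
  have hLB : B ≤ L := by
    have h1 : B * 1 ≤ max D1 B * w := by
      have : (1 : ℝ) ≤ w := by linarith
      exact mul_le_mul (le_max_right _ _) this (by norm_num) hD0.le
    linarith
  obtain ⟨C, hCinj, hCcard, hCsum, -, hCfst⟩ := hgeo L w (I / b) α hw0
    ((mul_le_mul_of_nonneg_right (le_max_left _ _) hw0.le).trans hwL)
    (by
      rw [le_div_iff₀ hb0]
      nlinarith)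
    (by
      rw [div_lt_iff₀ hb0]
      linarith)
    (le_trans (by
      apply div_le_div_of_nonneg_right _ hL0.le
      exact mul_le_mul_of_nonneg_right (le_max_left _ _) hw0.le) hα1)
    (hα2.trans (one_div_le_one_div_of_le (by linarith) (le_max_left _ _)))
  obtain ⟨C0, hC0⟩ : ∃ C0 : ℕ, C0 = ⌈I / b / w + 1⌉₊ := ⟨_, rfl⟩
  have hC0a : I / b / w + 1 ≤ C0 := by rw [hC0]; exact Nat.le_ceil _
  have hC0b : (C0 : ℝ) ≤ I / b / w + 2 := by
    have h1 := Nat.ceil_lt_add_one (show 0 ≤ I / b / w + 1 by positivity)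
    rw [← hC0] at h1
    linarith
  have hX : 0 < (1 - δ' / 8) * ((I / b) ^ 2 / (L * w)) := by
    have : 0 < 1 - δ' / 8 := by linarith
    positivity
  obtain ⟨A, f, -, hfmem, hfnn, hdet, hA1, hA2, hsum⟩ := rows_exist sh (fun v => rfl) C hCinj
    ((1 - δ' / 8) * ((I / b) ^ 2 / (L * w))) hX hCcard (len L w α)
    (fun v => by unfold len; positivity) (Rv r s x k)
    (fun v => Rv_ne r (fun i => (hr i).one_le) s x k v) ((Nu r x : ℚ) / (De r x : ℚ))
    (rho_ne_one r hr hinj x hx0) (fun v => Rv_sh r (fun i => (hr i).one_le) s x k v) C0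
    (fun v hv => (hCfst v hv).trans hC0a)
  have hineq := coreP_ineq r hr S hS m n hn hnm Tm hTm h h' s x k hx hk L w b α hnk hlk hnx hlx
    C0 A f hfnn (fun i => by
      have h1 := (le_abs_self _).trans ((hCfst _ (hfmem i)).trans hC0a)
      exact_mod_cast h1) hdet
  rw [← hI] at hineq
  have hrL : I / b < L := by
    rw [div_lt_iff₀ hb0]
    linarith
  have hr0 : 0 < I / b := by positivity
  have hTL : (A : ℝ) + 1 ≤ L + 1 := by
    refine hA2.trans ?_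
    have h1 : (I / b) ^ 2 / (L * w) ≤ L := by
      rw [div_le_iff₀ (by positivity)]
      have h2 : (I / b) ^ 2 ≤ L ^ 2 := by
        apply pow_le_pow_left₀ hr0.le hrL.le
      have h3 : (1 : ℝ) ≤ w := by linarith
      nlinarith [mul_pos hL0 hL0]
    have h2 : (1 - δ' / 8) * ((I / b) ^ 2 / (L * w)) ≤ L := by
      refine le_trans ?_ h1
      have h3 : 0 ≤ (I / b) ^ 2 / (L * w) := by positivity
      nlinarith
    linarith
  have hsm := hB L w I ((A : ℝ) + 1) C0 hLB hw (by nlinarith) (by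
      have : (0 : ℝ) ≤ A := Nat.cast_nonneg A
      linarith) hTL (by
      refine hC0b.trans ?_
      have h1 : I / b / w ≤ I / w := by
        apply div_le_div_of_nonneg_right _ hw0.le
        rw [div_le_iff₀ hb0]
        nlinarith
      linarith)
  refine coreP_num δ' hδ'0 hδ'1 I Tm L w b ((A : ℝ) + 1) ((I / b) ^ 2 / (L * w))
    (∑ i, len L w α (f i)) (Real.log (2 * ((A : ℝ) + 1))) C0 hI0 hb1 hL0 hw0 rfl (by linarith)
    (hsum.trans hCsum) hineq hsm (hmain.trans ?_)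
  have : 0 < I ^ 2 := by positivity
  nlinarith

end Pool.ZB
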