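import Pool.Agent.Helper42.ZB.E2
import Pool.Agent.Helper42.ZB.E3
import Pool.Agent.Helper44.RA.V1

/-! Project ZB: the points `c x - μ k`. -/

set_option autoImplicit false

namespace Pool.ZB

open Finset Pool.RA

variable {ι : Type} [Fintype ι]

/-- The vector `c x - μ k`, `v = (c, μ)`. -/
def vec (x k : ι → ℤ) (v : ℤ × ℤ) : ι → ℤ := v.1 • x - v.2 • k

omit [Fintype ι] in
theorem vec_sh (x k : ι → ℤ) (v : ℤ × ℤ) : vec x k (v.1 + 1, v.2) = vec x k v + x := by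
  unfold vec
  funext i
  simp only [Pi.sub_apply, Pi.add_apply, Pi.smul_apply, smul_eq_mul]
  ring

theorem nm_vec (r : ι → ℕ) (x k : ι → ℤ) (α w L : ℝ)
    (hk : nm r k ≤ 2 * L) (hx : nmR r (fun i => (x i : ℝ) - α * k i) ≤ w) (v : ℤ × ℤ) :
    nm r (vec x k v) ≤ |(v.1 : ℝ)| * w + 2 * L * |(v.1 : ℝ) * α - v.2| := by
  have h1 : (fun i => ((vec x k v i : ℤ) : ℝ)) =
      ((v.1 : ℝ) • (fun i => (x i : ℝ) - α * k i)) +
        (((v.1 : ℝ) * α - v.2) • (fun i => (k i : ℝ))) := by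
    funext i
    unfold vec
    simp only [Pi.sub_apply, Pi.add_apply, Pi.smul_apply, smul_eq_mul]
    push_cast
    ring
  unfold nm
  rw [h1]
  refine (nmR_add_le r _ _).trans ?_
  rw [nmR_smul, nmR_smul]
  have h2 : nmR r (fun i => (k i : ℝ)) ≤ 2 * L := hk
  have h3 := mul_le_mul_of_nonneg_left hx (abs_nonneg (v.1 : ℝ))
  have h4 := mul_le_mul_of_nonneg_left h2 (abs_nonneg ((v.1 : ℝ) * α - v.2))
  linarith

theorem lam_vec (r : ι → ℕ) (x k : ι → ℤ) (α w L : ℝ)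
    (hk : |lam r k| ≤ 2 * L) (hx : |lamR r (fun i => (x i : ℝ) - α * k i)| ≤ w) (v : ℤ × ℤ) :
    |lam r (vec x k v)| ≤ |(v.1 : ℝ)| * w + 2 * L * |(v.1 : ℝ) * α - v.2| := by
  have h1 : lam r (vec x k v) = (v.1 : ℝ) * lamR r (fun i => (x i : ℝ) - α * k i) +
      ((v.1 : ℝ) * α - v.2) * lam r k := by
    unfold lam lamR vec
    rw [mul_sum, mul_sum, ← sum_add_distrib]
    refine sum_congr rfl fun i _ => ?_
    simp only [Pi.sub_apply, Pi.smul_apply, smul_eq_mul]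
    push_cast
    ring
  rw [h1]
  refine (abs_add_le _ _).trans ?_
  rw [abs_mul, abs_mul]
  have h3 := mul_le_mul_of_nonneg_left hx (abs_nonneg (v.1 : ℝ))
  have h4 := mul_le_mul_of_nonneg_left hk (abs_nonneg ((v.1 : ℝ) * α - v.2))
  linarith

/-- The numerator and the denominator of a point are at most `exp (b |v| / 2)`. -/
theorem size_vec (r : ι → ℕ) (hr : ∀ i, 1 ≤ r i) (x k : ι → ℤ) (α w L b : ℝ)
    (hk : nm r k ≤ 2 * L) (hx : nmR r (fun i => (x i : ℝ) - α * k i) ≤ w)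
    (hk' : |lam r k| ≤ (b - 1) * (2 * L))
    (hx' : |lamR r (fun i => (x i : ℝ) - α * k i)| ≤ (b - 1) * w) (v : ℤ × ℤ) :
    (Nu r (vec x k v) : ℝ) ≤
        Real.exp (b / 2 * (|(v.1 : ℝ)| * w + 2 * L * |(v.1 : ℝ) * α - v.2|)) ∧
      (De r (vec x k v) : ℝ) ≤
        Real.exp (b / 2 * (|(v.1 : ℝ)| * w + 2 * L * |(v.1 : ℝ) * α - v.2|)) := by
  have h1 := nm_vec r x k α w L hk hx v
  have h2 := lam_vec r x k α ((b - 1) * w) ((b - 1) * L) (by linarith) hx' v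
  have h3 := lam_eq r hr (vec x k v)
  have h4 := log_nu_add r hr (vec x k v)
  have hN : (0 : ℝ) < Nu r (vec x k v) := by exact_mod_cast nu_pos r hr _
  have hD : (0 : ℝ) < De r (vec x k v) := by exact_mod_cast de_pos r hr _
  have h5 : |lam r (vec x k v)| ≤
      (b - 1) * (|(v.1 : ℝ)| * w + 2 * L * |(v.1 : ℝ) * α - v.2|) := by
    refine h2.trans (le_of_eq ?_)
    ring
  rw [abs_le] at h5
  constructor
  · rw [← Real.log_le_iff_le_exp hN]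
    linarith [h5.2]
  · rw [← Real.log_le_iff_le_exp hD]
    linarith [h5.1]

/-- The sign `s ^ μ` times the numerator. -/
def vnum (r : ι → ℕ) (s : ℤˣ) (x k : ι → ℤ) (v : ℤ × ℤ) : ℤ :=
  ((s ^ v.2 : ℤˣ) : ℤ) * (Nu r (vec x k v) : ℤ)

theorem abs_vnum (r : ι → ℕ) (s : ℤˣ) (x k : ι → ℤ) (v : ℤ × ℤ) :
    |((vnum r s x k v : ℤ) : ℝ)| = (Nu r (vec x k v) : ℝ) := by
  unfold vnum
  rw [Int.cast_mul, abs_mul]
  have h1 : |(((s ^ v.2 : ℤˣ) : ℤ) : ℝ)| = 1 := by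
    rcases Int.units_eq_one_or (s ^ v.2) with h | h <;> rw [h] <;> simp
  rw [h1, one_mul, Int.cast_natCast, Nat.abs_cast]

/-- The rational number of a point. -/
noncomputable def Rv (r : ι → ℕ) (s : ℤˣ) (x k : ι → ℤ) (v : ℤ × ℤ) : ℚ :=
  (vnum r s x k v : ℚ) / ((De r (vec x k v) : ℤ) : ℚ)

theorem Rv_ne (r : ι → ℕ) (hr : ∀ i, 1 ≤ r i) (s : ℤˣ) (x k : ι → ℤ) (v : ℤ × ℤ) :
    Rv r s x k v ≠ 0 := by
  unfold Rv vnum
  have h1 : (0 : ℤ) < (De r (vec x k v) : ℤ) := by exact_mod_cast de_pos r hr _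
  have h2 : (0 : ℤ) < (Nu r (vec x k v) : ℤ) := by exact_mod_cast nu_pos r hr _
  refine div_ne_zero ?_ (by exact_mod_cast h1.ne')
  have h3 : ((s ^ v.2 : ℤˣ) : ℤ) * (Nu r (vec x k v) : ℤ) ≠ 0 :=
    mul_ne_zero (Units.ne_zero _) h2.ne'
  exact_mod_cast h3

/-- The shift multiplies by `ρ`. -/
theorem Rv_sh (r : ι → ℕ) (hr : ∀ i, 1 ≤ r i) (s : ℤˣ) (x k : ι → ℤ) (v : ℤ × ℤ) :
    Rv r s x k (v.1 + 1, v.2) = (Nu r x : ℚ) / (De r x : ℚ) * Rv r s x k v := by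
  unfold Rv vnum
  rw [vec_sh]
  have h1 := ratio_add r hr (vec x k v) x
  simp only [Int.cast_mul, Int.cast_natCast]
  rw [mul_div_assoc, mul_div_assoc, h1]
  ring

theorem rho_ne_one (r : ι → ℕ) (hr : ∀ i, (r i).Prime) (hinj : Function.Injective r)
    (x : ι → ℤ) (hx : x ≠ 0) : (Nu r x : ℚ) / (De r x : ℚ) ≠ 1 := by
  intro h
  have hD : ((De r x : ℕ) : ℚ) ≠ 0 := by
    have := de_pos r (fun i => (hr i).one_le) x
    positivity
  rw [div_eq_one_iff_eq hD] at h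
  have h2 : Nu r x = De r x := by exact_mod_cast h
  exact hx (eq_zero_of_nu_eq_de r hr hinj x h2)

/-- The unit `s` of `ℤ` in `ZMod m`. -/
def sgn (m : ℕ) (s : ℤˣ) : (ZMod m)ˣ := Units.map (Int.castRingHom (ZMod m)).toMonoidHom s

theorem sgn_coe (m : ℕ) (s : ℤˣ) : ((sgn m s : (ZMod m)ˣ) : ZMod m) = ((s : ℤ) : ZMod m) := rfl

/-- The congruences of the points. -/
theorem lift_pts (r : ι → ℕ) (S : Finset ℕ) (m n : ℕ → ℕ) (hnm : ∀ p ∈ S, n p ≤ m p)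
    (hn : ∀ p ∈ S, 1 ≤ n p) (hS : ∀ p ∈ S, p.Prime)
    (h : ∀ i, (r i).Coprime (∏ p ∈ S, p ^ m p)) (h' : ∀ i, (r i).Coprime (∏ p ∈ S, p ^ n p))
    (s : ℤˣ) (x k : ι → ℤ) (hx : chi r (∏ p ∈ S, p ^ n p) h' x = 1)
    (hk : chi r (∏ p ∈ S, p ^ m p) h k = sgn _ s) (C0 : ℕ) :
    ∃ g G : ℤ, (∀ p ∈ S, ((p : ℤ) ^ n p) ∣ g - 1) ∧ (∀ p ∈ S, ¬ (p : ℤ) ∣ G) ∧
      ∀ v : ℤ × ℤ, 0 ≤ v.1 + C0 → ∀ p ∈ S, ((p : ℤ) ^ m p) ∣
        G * vnum r s x k v - g ^ (v.1 + C0).toNat * (De r (vec x k v) : ℤ) := by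
  set M : ℕ := ∏ p ∈ S, p ^ m p with hM
  set P : ℕ := ∏ p ∈ S, p ^ n p with hP
  have hM0 : M ≠ 0 := by
    rw [hM]
    exact Finset.prod_ne_zero_iff.2 fun p hp => pow_ne_zero _ (hS p hp).ne_zero
  have : NeZero M := ⟨hM0⟩
  have hPM : P ∣ M := Finset.prod_dvd_prod_of_dvd _ _ fun p hp => pow_dvd_pow p (hnm p hp)
  obtain ⟨g, hgdef⟩ : ∃ g : ℤ, g = ((((chi r M h x : (ZMod M)ˣ) : ZMod M).val : ℕ) : ℤ) :=
    ⟨_, rfl⟩
  have hg : ((g : ℤ) : ZMod M) = ((chi r M h x : (ZMod M)ˣ) : ZMod M) := by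
    rw [hgdef, Int.cast_natCast]
    exact ZMod.natCast_zmod_val _
  have h1 : ∀ p ∈ S, ((p : ℤ) ^ n p) ∣ g - 1 := by
    intro p hp
    have h1 : (P : ℤ) ∣ g - 1 := by
      rw [← ZMod.intCast_zmod_eq_zero_iff_dvd]
      have h2 := congrArg (ZMod.castHom hPM (ZMod P)) hg
      rw [map_intCast, chi_cast r M P h h' hPM x, hx, Units.val_one] at h2
      push_cast
      rw [h2, sub_self]
    have h3 : ((p : ℤ) ^ n p) ∣ (P : ℤ) := by
      have h4 : p ^ n p ∣ P := Finset.dvd_prod_of_mem (fun p => p ^ n p) hp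
      exact_mod_cast h4
    exact h3.trans h1
  refine ⟨g, g ^ C0, h1, ?_, ?_⟩
  · intro p hp hd
    have hpp : Prime (p : ℤ) := Nat.prime_iff_prime_int.1 (hS p hp)
    have h2 : (p : ℤ) ∣ g := hpp.dvd_of_dvd_pow hd
    have h3 : (p : ℤ) ∣ g - 1 :=
      (dvd_pow_self (p : ℤ) (by have := hn p hp; omega)).trans (h1 p hp)
    have h4 : (p : ℤ) ∣ 1 := by
      have h5 := dvd_sub h2 h3
      rwa [sub_sub_cancel] at h5
    exact hpp.not_dvd_one h4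
  · intro v hv p hp
    have h2 : (M : ℤ) ∣ g ^ C0 * vnum r s x k v - g ^ (v.1 + C0).toNat *
        (De r (vec x k v) : ℤ) := by
      rw [← ZMod.intCast_zmod_eq_zero_iff_dvd]
      unfold vnum
      push_cast
      rw [hg, nu_eq r M h (vec x k v)]
      have h3 : chi r M h (vec x k v) = chi r M h x ^ v.1 * (sgn M s ^ v.2)⁻¹ := by
        unfold vec
        rw [chi_sub, chi_zsmul, chi_zsmul, hk]
      have h4 : (((s ^ v.2 : ℤˣ) : ℤ) : ZMod M) = ((sgn M s ^ v.2 : (ZMod M)ˣ) : ZMod M) := by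
        unfold sgn
        rw [← map_zpow]
        rfl
      have h5 : chi r M h x ^ C0 * ((sgn M s ^ v.2) * (chi r M h x ^ v.1 * (sgn M s ^ v.2)⁻¹)) =
          chi r M h x ^ (v.1 + C0).toNat := by
        rw [mul_comm (sgn M s ^ v.2), inv_mul_cancel_right, ← zpow_natCast, ← zpow_natCast,
          ← zpow_add, Int.toNat_of_nonneg hv, add_comm]
      have h6 := congrArg (fun u : (ZMod M)ˣ => (u : ZMod M)) h5
      simp only [Units.val_mul, Units.val_pow_eq_pow_val] at h6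
      rw [h4, h3, Units.val_mul, ← h6]
      ring
    have h3 : ((p : ℤ) ^ m p) ∣ (M : ℤ) := by
      have h4 : p ^ m p ∣ M := Finset.dvd_prod_of_mem (fun p => p ^ m p) hp
      exact_mod_cast h4
    exact h3.trans h2

end Pool.ZB
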